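import Pool.Agent.H76.SF.Stm

set_option autoImplicit false

namespace H19.SF

open Finset Classical H76.SF

theorem split {V : Type} [Fintype V] (G : SimpleGraph V) (S : Finset V) (v : V) :
    (S.filter (fun x => G.Adj v x)).card + (S.filter (fun x => Gᶜ.Adj v x)).card =
      (S.erase v).card := by
  have h := Finset.card_filter_add_card_filter_not (s := S.erase v) (fun x => G.Adj v x)
  have e1 : (S.erase v).filter (fun x => G.Adj v x) = S.filter (fun x => G.Adj v x) := by
    ext x
    simp only [mem_filter, mem_erase]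
    exact ⟨fun h => ⟨h.1.2, h.2⟩, fun h => ⟨⟨h.2.ne', h.1⟩, h.2⟩⟩
  have e2 : (S.erase v).filter (fun x => ¬ G.Adj v x) = S.filter (fun x => Gᶜ.Adj v x) := by
    ext x
    simp only [mem_filter, mem_erase, SimpleGraph.compl_adj]
    exact ⟨fun h => ⟨h.1.2, h.1.1.symm, h.2⟩, fun h => ⟨⟨h.2.1.symm, h.1⟩, h.2.2⟩⟩
  rw [e1, e2] at h
  exact h

theorem two_parts {V : Type} [Fintype V] (W : Finset V) (P : V → Prop) [DecidablePred P] :
    (univ.filter P).card = (W.filter P).card + ((univ \ W).filter P).card := by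
  rw [← card_union_of_disjoint, ← filter_union, union_sdiff_of_subset (subset_univ W)]
  exact disjoint_filter_filter disjoint_sdiff

theorem t_ONE (hGRE : S_GRE) (hSPA : S_SPA) : S_ONE := by
  intro V _ G n r q hr hV hn hnon
  obtain ⟨m, hm⟩ : ∃ m, m = r * (q + 1) := ⟨_, rfl⟩
  rw [← hm] at hn
  have hrm : r ≤ m := by rw [hm]; exact Nat.le_mul_of_pos_right r (Nat.succ_pos q)
  have hdeg : ∀ v, n + r ≤ (univ.filter (fun x => G.Adj v x)).card := by
    intro v
    have h1 := split G univ v
    have h2 := hnon v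
    rw [card_erase_of_mem (mem_univ v), card_univ] at h1
    omega
  by_contra hno
  have hne : Nonempty V := by
    rw [← Fintype.card_pos_iff]; omega
  obtain ⟨v0⟩ := hne
  obtain ⟨W, hW, hWt⟩ := hSPA V G n r q v0 hr (by have := hdeg v0; omega) hno
  rw [← hm] at hWt
  have hWc : W.card = n + r - 1 := by omega
  obtain ⟨T, hT⟩ : ∃ T, T = W.filter (fun w => ¬ m ≤ (W.filter (fun x => G.Adj w x)).card) :=
    ⟨_, rfl⟩
  have hTc : n ≤ T.card := by
    have := Finset.card_filter_add_card_filter_not (s := W)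
      (fun w => m ≤ (W.filter (fun x => G.Adj w x)).card)
    rw [← hT] at this
    omega
  have hTW : T ⊆ W := by rw [hT]; exact filter_subset _ _
  have hTd : ∀ w ∈ T, (W.filter (fun x => G.Adj w x)).card < m := by
    intro w hw
    rw [hT, mem_filter] at hw
    omega
  obtain ⟨U, hU⟩ : ∃ U, U = univ \ W := ⟨_, rfl⟩
  have hUc : U.card = n + 1 := by
    rw [hU, card_sdiff_of_subset (subset_univ _), card_univ]
    omega
  -- typical vertices have few non-neighbours in `U`
  have hTU : ∀ w ∈ T, (U.filter (fun x => Gᶜ.Adj w x)).card < m := by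
    intro w hw
    have h1 := two_parts W (fun x => Gᶜ.Adj w x)
    rw [← hU] at h1
    have h2 := split G W w
    rw [card_erase_of_mem (hTW hw)] at h2
    have h3 := hTd w hw
    have h4 := hnon w
    omega
  -- bad vertices
  obtain ⟨B, hB⟩ : ∃ B, B = U.filter (fun u => ¬ 2 * m < (W.filter (fun x => G.Adj u x)).card) :=
    ⟨_, rfl⟩
  obtain ⟨T', hT'T, hT'c⟩ := exists_subset_card_eq hTc
  have hBd : ∀ u ∈ B, n - 2 * m ≤ (T'.filter (fun x => Gᶜ.Adj u x)).card := by
    intro u hu
    rw [hB, mem_filter] at hu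
    have huW : u ∉ W := by
      have := hu.1
      rw [hU, mem_sdiff] at this
      exact this.2
    have h2 := split G T' u
    rw [erase_eq_of_notMem (fun h => huW (hTW (hT'T h)))] at h2
    have h3 : (T'.filter (fun x => G.Adj u x)).card ≤ (W.filter (fun x => G.Adj u x)).card :=
      card_le_card (filter_subset_filter _ (hT'T.trans hTW))
    have h4 := hu.2
    omega
  have hcount : B.card * (n - 2 * m) ≤ n * m := by
    calc B.card * (n - 2 * m) = ∑ u ∈ B, (n - 2 * m) := by rw [sum_const, smul_eq_mul]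
      _ ≤ ∑ u ∈ B, (T'.filter (fun x => Gᶜ.Adj u x)).card := sum_le_sum hBd
      _ ≤ ∑ u ∈ U, (T'.filter (fun x => Gᶜ.Adj u x)).card :=
          sum_le_sum_of_subset (by rw [hB]; exact filter_subset _ _)
      _ = ∑ x ∈ T', (U.filter (fun u => Gᶜ.Adj x u)).card := by
          simp only [card_filter]
          rw [sum_comm]
          refine sum_congr rfl fun x _ => sum_congr rfl fun u _ => ?_
          simp only [SimpleGraph.adj_comm]
      _ ≤ ∑ x ∈ T', m := sum_le_sum fun x hx => (hTU x (hT'T hx)).le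
      _ = n * m := by rw [sum_const, smul_eq_mul, hT'c]
  have hBc : B.card ≤ 2 * m := by
    by_contra hcon
    have h1 : (2 * m + 1) * (n - 2 * m) ≤ n * m :=
      (Nat.mul_le_mul_right _ (by omega)).trans hcount
    obtain ⟨t, ht⟩ : ∃ t, n = 20 * m + t := ⟨n - 20 * m, by omega⟩
    have e : n - 2 * m = 18 * m + t := by omega
    rw [e, ht] at h1
    nlinarith
  -- the centre
  have hTne : T.Nonempty := by
    rw [← card_pos]; omega
  obtain ⟨w, hw⟩ := hTne
  obtain ⟨Gd, hGd⟩ : ∃ Gd, Gd = (U.filter (fun x => G.Adj w x)) \ B := ⟨_, rfl⟩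
  have hGdc : r ≤ Gd.card := by
    have h1 := split G U w
    have hwU : w ∉ U := by
      rw [hU, mem_sdiff]
      exact fun h => h.2 (hTW hw)
    rw [erase_eq_of_notMem hwU, hUc] at h1
    have h2 := hTU w hw
    have h3 := le_card_sdiff B (U.filter (fun x => G.Adj w x))
    rw [← hGd] at h3
    omega
  obtain ⟨D, hDG, hDc⟩ := exists_subset_card_eq hGdc
  obtain ⟨u, hu⟩ : ∃ u : Fin r → V, u = fun i => ((D.equivFinOfCardEq hDc).symm i : V) := ⟨_, rfl⟩
  have huinj : Function.Injective u := by
    rw [hu]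
    exact Subtype.val_injective.comp (D.equivFinOfCardEq hDc).symm.injective
  have huD : ∀ i, u i ∈ D := by
    intro i
    rw [hu]
    exact ((D.equivFinOfCardEq hDc).symm i).2
  have hND : n ≤ ((univ.filter (fun x => G.Adj w x)) \ D).card := by
    have h1 := le_card_sdiff D (univ.filter (fun x => G.Adj w x))
    have h2 := hdeg w
    omega
  obtain ⟨L, hLN, hLc⟩ := exists_subset_card_eq hND
  have hLadj : ∀ x ∈ L, G.Adj w x := by
    intro x hx
    have := hLN hx
    rw [mem_sdiff, mem_filter] at this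
    exact this.1.2
  have hLD : ∀ x ∈ L, x ∉ D := by
    intro x hx
    have := hLN hx
    rw [mem_sdiff] at this
    exact this.2
  apply hno
  apply hGRE V G n r q w L u hLc hLadj huinj
  · intro i
    refine ⟨?_, fun h => hLD _ h (huD i)⟩
    intro h
    have h1 := hDG (huD i)
    rw [hGd, mem_sdiff, mem_filter, hU, mem_sdiff] at h1
    rw [h] at h1
    exact h1.1.1.2 (hTW hw)
  · intro i
    rw [← hm]
    have h1 := hDG (huD i)
    rw [hGd, mem_sdiff, mem_filter] at h1
    have h2 : 2 * m < (W.filter (fun x => G.Adj (u i) x)).card := by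
      by_contra hcon
      apply h1.2
      rw [hB, mem_filter]
      exact ⟨h1.1.1, hcon⟩
    have h3 : (W.filter (fun x => G.Adj (u i) x)) \ (insert w (W.filter (fun x => G.Adj w x))) ⊆
        univ.filter (fun x => G.Adj (u i) x ∧ x ∉ L ∧ x ≠ w) := by
      intro x hx
      rw [mem_sdiff, mem_filter, mem_insert, mem_filter] at hx
      rw [mem_filter]
      refine ⟨mem_univ _, hx.1.2, fun h => hx.2 (Or.inr ⟨hx.1.1, hLadj x h⟩), fun h => ?_⟩
      exact hx.2 (Or.inl h)
    have h4 := card_le_card h3
    have h5 := le_card_sdiff (insert w (W.filter (fun x => G.Adj w x)))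
      (W.filter (fun x => G.Adj (u i) x))
    have h6 := card_insert_le w (W.filter (fun x => G.Adj w x))
    have h7 := hTd w hw
    omega

end H19.SF
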